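import Pool.Agent.Helper548.LoopFinal

/-!
# Finite abelian inner mapping groups of loops

A finite abelian group is the inner mapping group of a loop if and only if it is isomorphic to
`C_e × C_e × D` where `e ≥ 1` and `D` is a finite abelian group with `d ^ e = 1` for all `d`,
that is, if and only if its two largest invariant factors are equal.
-/

namespace Pool.Agent.Results.MP_c6182e_al.AbelianInner

universe u

/-- `Q` is a loop: `1` is a two-sided identity and all left and right translations are
bijections. -/
structure IsLoop (Q : Type u) [Mul Q] [One Q] : Prop where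
  one_mul : ∀ x : Q, 1 * x = x
  mul_one : ∀ x : Q, x * 1 = x
  left_bijective : ∀ a : Q, Function.Bijective (fun x : Q => a * x)
  right_bijective : ∀ a : Q, Function.Bijective (fun x : Q => x * a)

/-- The multiplication group: the group of permutations generated by all left and right
translations. -/
def multGroup (Q : Type u) [Mul Q] : Subgroup (Equiv.Perm Q) :=
  Subgroup.closure {g | ∃ a : Q, (∀ x, g x = a * x) ∨ (∀ x, g x = x * a)}

/-- The inner mapping group: the stabilizer of `1` in the multiplication group. -/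
def innerGroup (Q : Type u) [Mul Q] [One Q] : Subgroup (Equiv.Perm Q) :=
  multGroup Q ⊓ MulAction.stabilizer (Equiv.Perm Q) (1 : Q)

/-- the auxiliary structure with divisions -/
noncomputable def toLoop (Q : Type u) [Mul Q] [One Q] (h : IsLoop Q) : LpAim.Loop Q where
  ld a b := (h.left_bijective a).surjective b |>.choose
  rd b a := (h.right_bijective a).surjective b |>.choose
  one_mul' := h.one_mul
  mul_one' := h.mul_one
  mul_ld a b := ((h.left_bijective a).surjective b).choose_spec
  ld_mul a b := (h.left_bijective a).injective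
    ((h.left_bijective a).surjective (a * b)).choose_spec
  rd_mul a b := ((h.right_bijective a).surjective b).choose_spec
  mul_rd a b := (h.right_bijective a).injective
    ((h.right_bijective a).surjective (b * a)).choose_spec

theorem isLoop_of (Q : Type u) [i : LpAim.Loop Q] : IsLoop Q where
  one_mul := LpAim.lone_mul
  mul_one := LpAim.lmul_one
  left_bijective a := (LpAim.L a).bijective
  right_bijective a := (LpAim.R a).bijective

theorem multGroup_eq (Q : Type u) [i : LpAim.Loop Q] : multGroup Q = LpAim.Mlt Q := by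
  unfold multGroup LpAim.Mlt
  congr 1
  ext g
  constructor
  · rintro ⟨a, h | h⟩
    · exact Or.inl ⟨a, (Equiv.ext h).symm⟩
    · exact Or.inr ⟨a, (Equiv.ext h).symm⟩
  · rintro (⟨a, rfl⟩ | ⟨a, rfl⟩)
    · exact ⟨a, Or.inl fun x => rfl⟩
    · exact ⟨a, Or.inr fun x => rfl⟩

theorem innerGroup_eq (Q : Type u) [i : LpAim.Loop Q] : innerGroup Q = LpAim.St (1 : Q) := by
  unfold innerGroup LpAim.St
  rw [multGroup_eq]

/-- **Main theorem.**  A finite abelian group `G` is isomorphic to the inner mapping group of
some loop if and only if `G ≅ C_e × C_e × D` for some `e ≥ 1` and some finite abelian group `D`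
of exponent dividing `e`. -/
theorem result : ∀ (G : Type u) [CommGroup G] [Finite G],
    (∃ (Q : Type u) (_ : Mul Q) (_ : One Q), IsLoop Q ∧ Nonempty (G ≃* innerGroup Q)) ↔
      ∃ (e : ℕ) (D : Type) (_ : CommGroup D), 1 ≤ e ∧ Finite D ∧ (∀ d : D, d ^ e = 1) ∧
        Nonempty (G ≃* Multiplicative (ZMod e) × Multiplicative (ZMod e) × D) := by
  intro G _ _
  constructor
  · rintro ⟨Q, iM, iO, hL, ⟨φ⟩⟩
    letI i : LpAim.Loop Q := toLoop Q hL
    have φ' : G ≃* LpAim.St (1 : Q) := φ.trans (MulEquiv.subgroupCongr (innerGroup_eq Q))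
    obtain ⟨e, D, iD, he, hF, hD, hφ⟩ := LpAim.necessity φ'
    exact ⟨e, D, iD, Nat.one_le_iff_ne_zero.2 he, hF, hD, hφ⟩
  · rintro ⟨e, D, iD, he, hF, hD, hφ⟩
    obtain ⟨Q, i, _, ⟨φ⟩⟩ := LpAim.sufficiency.{u} (G := G)
      ⟨e, D, iD, Nat.one_le_iff_ne_zero.1 he, hF, hD, hφ⟩
    exact ⟨Q, inferInstance, inferInstance, isLoop_of Q,
      ⟨φ.trans (MulEquiv.subgroupCongr (innerGroup_eq Q).symm)⟩⟩

end Pool.Agent.Results.MP_c6182e_al.AbelianInner
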